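import Mathlib

set_option autoImplicit false

/-!
# A finite indecomposable cycle set with a cycle of length coprime to its size

On `F × F`, where `F` is the field with four elements and `w` is a generator of its
multiplicative group, put `(i, j) · (k, l) = (w² (k + j), w² l + k + i)`.  This is an
indecomposable cycle set with `16` elements, and every left multiplication has a cycle of
length `3`.
-/

namespace Pool.Agent.Results.MP_6d14ae_al.CoprimeCycle

universe u

/-- A cycle set structure on `X`: all left multiplications are bijective and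
`(x · y) · (x · z) = (y · x) · (y · z)`. -/
structure CycleSet (X : Type u) where
  /-- the operation -/
  op : X → X → X
  /-- left multiplications are bijective -/
  bij : ∀ x, Function.Bijective (op x)
  /-- the cycle set identity -/
  cyc : ∀ x y z, op (op x y) (op x z) = op (op y x) (op y z)

/-- A cycle set is decomposable if it is the disjoint union of nonempty sets `Y`, `Z` with
`Y · Z ⊆ Z` and `Z · Y ⊆ Y`. -/
def Decomposable {X : Type u} (C : CycleSet X) : Prop :=
  ∃ Y Z : Set X, Y.Nonempty ∧ Z.Nonempty ∧ Y ∪ Z = Set.univ ∧ Disjoint Y Z ∧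
    (∀ y ∈ Y, ∀ z ∈ Z, C.op y z ∈ Z) ∧ (∀ z ∈ Z, ∀ y ∈ Y, C.op z y ∈ Y)

/-- The left multiplication by `x` contains a cycle of length `k`; fixed points are not counted. -/
def HasCycle {X : Type u} (C : CycleSet X) (x : X) (k : ℕ) : Prop :=
  2 ≤ k ∧ ∃ y, Function.minimalPeriod (C.op x) y = k

/-- The additive group of the field with four elements, `(a, b)` standing for `a + b w`. -/
abbrev F4 := Bool × Bool

/-- addition in the field with four elements -/
def add (x y : F4) : F4 := (xor x.1 y.1, xor x.2 y.2)

/-- multiplication by `w² = 1 + w` -/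
def mw2 (x : F4) : F4 := (xor x.1 x.2, x.1)

/-- the operation on pairs -/
def op (x y : F4 × F4) : F4 × F4 :=
  (mw2 (add y.1 x.2), add (mw2 y.2) (add y.1 x.1))

theorem op_inj : ∀ x y z : F4 × F4, op x y = op x z → y = z := by
  decide

theorem op_cyc : ∀ x y z : F4 × F4, op (op x y) (op x z) = op (op y x) (op y z) := by
  decide

theorem op_trans : ∀ p q : F4 × F4, ∃ x, ∃ j : F4, op x (op ((false, false), j) p) = q := by
  decide

/-- the cycle set with sixteen elements -/
def C16 : CycleSet (F4 × F4) where
  op := op
  bij x := Finite.injective_iff_bijective.mp (fun y z h => op_inj x y z h)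
  cyc := op_cyc

theorem not_decomposable : ¬ Decomposable C16 := by
  rintro ⟨Y, Z, ⟨p, hp⟩, ⟨q, hq⟩, hu, hd, hYZ, hZY⟩
  have hmem : ∀ x, x ∈ Y ∨ x ∈ Z := fun x => by
    have : x ∈ Y ∪ Z := by rw [hu]; trivial
    exact this
  have hdis : ∀ x, x ∈ Y → x ∈ Z → False := fun x h1 h2 => Set.disjoint_left.mp hd h1 h2
  -- every left multiplication preserves `Y`
  have hY : ∀ x y, y ∈ Y → op x y ∈ Y := by
    intro x y hy
    rcases hmem x with hx | hx
    · rcases hmem (op x y) with h | h
      · exact h
      · exfalso
        have hsub : op x '' Z ⊆ Z := by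
          rintro _ ⟨z, hz, rfl⟩
          exact hYZ x hx z hz
        have himg : op x '' Z = Z := by
          apply Set.eq_of_subset_of_ncard_le hsub _ (Set.toFinite Z)
          rw [Set.ncard_image_of_injective Z (fun a b h => op_inj x a b h)]
        rw [← himg] at h
        obtain ⟨z, hz, hzy⟩ := h
        have := op_inj x z y hzy
        subst this
        exact hdis z hy hz
    · exact hZY x hx y hy
  obtain ⟨x, j, hx⟩ := op_trans p q
  apply hdis q _ hq
  rw [← hx]
  exact hY _ _ (hY _ _ hp)

theorem has_cycle (x : F4 × F4) : HasCycle C16 x 3 := by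
  have hex : ∀ x : F4 × F4, ∃ y, op x y ≠ y ∧ op x (op x (op x y)) = y := by decide
  obtain ⟨y, h1, h2⟩ := hex x
  refine ⟨by norm_num, y, ?_⟩
  have h3 : Function.IsPeriodicPt (op x) 3 y := h2
  have h4 := h3.minimalPeriod_dvd
  rcases (Nat.dvd_prime Nat.prime_three).mp h4 with h | h
  · exact absurd (Function.minimalPeriod_eq_one_iff_isFixedPt.mp h) h1
  · exact h

theorem result : ∃ (X : Type) (_ : Fintype X) (C : CycleSet X), Fintype.card X = 16 ∧
    ¬ Decomposable C ∧ (∀ x, HasCycle C x 3) ∧ Nat.Coprime 3 (Fintype.card X) :=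
  ⟨F4 × F4, inferInstance, C16, by decide, not_decomposable, has_cycle, by decide⟩

end Pool.Agent.Results.MP_6d14ae_al.CoprimeCycle
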